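import Pool.Agent.Y880.RS.P3g

/-!
# Patterns of prime gaps repeated along progressions in dense sets of primes

`GapsAfter g p`: the prime `p` is followed by the prime gaps `g 0, ..., g (m - 1)`.

(1) Every set `S` of at least `δ Y / log Y` primes of `(y, y + Y]`, `y + Y ≤ Y ^ A`, contains `k`-term
progressions with difference at most `(log Y) ^ B` all of whose terms are followed by the same `m` prime gaps `g`,
for at least `c (log Y) ^ m` vectors `g` of `[1, C log Y] ^ m`.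

(2) The same for the set of all primes up to `Y` with gaps `g i ≥ Λ log Y` and `g (i + 1) ≥ Λ g i`, for every `Λ`.
-/

set_option autoImplicit false

open Finset

namespace Pool.Agent.Results.MP_b0c12c_nt.GapPatternsInDenseSets

open Pool.Agent.Y880.RS.P3

theorem result (k m : ℕ) (hk : 2 ≤ k) :
    (∀ A : ℕ, 1 ≤ A → ∀ δ : ℝ, 0 < δ → ∃ B : ℕ, ∃ c C : ℝ, 0 < c ∧ ∃ Y₀ : ℕ, ∀ y Y : ℕ, Y₀ ≤ Y →
      y + Y ≤ Y ^ A → ∀ S ⊆ Ioc y (y + Y), (∀ p ∈ S, p.Prime) → δ * (Y / Real.log Y) ≤ S.card →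
      ∃ G : Finset (Fin m → ℕ), c * Real.log Y ^ m ≤ G.card ∧ ∀ g ∈ G,
        (∀ i, 1 ≤ g i ∧ (g i : ℝ) ≤ C * Real.log Y) ∧
        ∃ W ⊆ S, Y / Real.log Y ^ B ≤ W.card ∧ ∀ a ∈ W, ∃ d : ℕ, 1 ≤ d ∧ (d : ℝ) ≤ Real.log Y ^ B ∧
          ∀ j < k, a + j * d ∈ S ∧ GapsAfter g (a + j * d)) ∧
    (∀ Λ : ℝ, ∃ B : ℕ, ∃ c C : ℝ, 0 < c ∧ ∃ Y₀ : ℕ, ∀ Y : ℕ, Y₀ ≤ Y →
      ∃ G : Finset (Fin m → ℕ), c * Real.log Y ^ m ≤ G.card ∧ ∀ g ∈ G,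
        (∀ i, Λ * Real.log Y ≤ g i ∧ (g i : ℝ) ≤ C * Real.log Y) ∧
        (∀ i j : Fin m, (i : ℕ) + 1 = j → Λ * g i ≤ g j) ∧
        ∃ W ⊆ Icc 1 Y, Y / Real.log Y ^ B ≤ W.card ∧ ∀ a ∈ W, ∃ d : ℕ, 1 ≤ d ∧ (d : ℝ) ≤ Real.log Y ^ B ∧
          ∀ j < k, a + j * d ≤ Y ∧ GapsAfter g (a + j * d)) :=
  ⟨fun A hA δ hδ => pat_gaps k m A hk hA δ hδ, fun Λ => pat_chains k m hk Λ⟩

end Pool.Agent.Results.MP_b0c12c_nt.GapPatternsInDenseSets
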