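import Pool.Agent.Y565.RG.QuotP

set_option autoImplicit false

/-! # Prime gaps of record length around the quotients `x / p`, `p` prime

Let `0 < ε ≤ 1/2` and `f(x) = log x (log₂ x)² log₄ x / (log₃ x)²`, the order of the largest known
prime gaps.  There is `κ > 0` such that for all large real `x`, all real `Z` in
`[x ^ ε, x ^ (1 - ε)]` and all real `β` with `|β| ≤ x ^ ε / 4`, at least `Z ^ (1 - ε)` primes `p` in
`(Z, (1 + ε) Z]` are such that no prime lies within `κ f(x)` of `x / p + β`.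

Proof: a power saving, uniform in `x` and `Z`, for the sums over primes of `e(h x / (q p))`
(Vaughan's identity and Weyl differencing of high order; starting library,
`H895R3.NK.prime_exp_bound`), and the covering sieve of `MP_3bc45c_nt.RecordGaps` in the form for real
sequences (starting library, `TH915.PW.crit_scaled`). -/

namespace Pool.Agent.Results.MP_b0c12c_nt.QuotientsByPrimes

theorem result (ε : ℝ) (hε : 0 < ε) (hε1 : ε ≤ 1 / 2) :
    ∃ κ : ℝ, 0 < κ ∧ ∃ x₀ : ℝ, ∀ x : ℝ, x₀ ≤ x → ∀ Z β : ℝ, x ^ ε ≤ Z → Z ≤ x ^ (1 - ε) →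
      |β| ≤ x ^ ε / 4 →
      ∃ G : Finset ℕ, Z ^ (1 - ε) ≤ (G.card : ℝ) ∧ ∀ p ∈ G, p.Prime ∧
        Z < p ∧ (p : ℝ) ≤ (1 + ε) * Z ∧
        ∀ q : ℕ, q.Prime →
          κ * (Real.log x * (Real.log (Real.log x)) ^ 2 *
            Real.log (Real.log (Real.log (Real.log x))) /
              (Real.log (Real.log (Real.log x))) ^ 2) < |(q : ℝ) - (x / p + β)| := by
  obtain ⟨κ, hκ, h⟩ := Pool.Agent.Y565.RG.quot_uniform ε hε hε1
  exact ⟨κ, hκ, Filter.eventually_atTop.mp h⟩

end Pool.Agent.Results.MP_b0c12c_nt.QuotientsByPrimes
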