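import Pool.Agent.Y961.JR.PrimesFix

set_option autoImplicit false

/-!
# Record prime gaps around several real multiples of one prime number, at the same time

Write `f(Z) = log Z (log₂ Z)² log₄ Z / (log₃ Z)²` (the size of the largest prime gaps known), and let
`b` be prime to `d` and `0 < ρ ≤ 1`.

1. (Uniform version.) Let `r ≥ 1` and `0 < ε ≤ 1 / 2`. There is `κ > 0` such that for all large `Z`
   the following holds for ALL real `α₁, …, α_r`, which may depend on `Z`, with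
   `|h₁ α₁ + ⋯ + h_r α_r - m| ≥ Z ^ (-(1 - ε))` for all integers `m` and all nonzero integer vectors
   `h` with entries at most `Z ^ ε`, and for all real `β₁, …, β_r` such that the `α_j n + β_j` are at
   least `Z ^ ε` for `Z < n ≤ (1 + ρ) Z`: there is a prime `p ≡ b (mod d)` in `(Z, (1 + ρ) Z]` such
   that no prime lies within `κ f(Z)` of any of the `r` numbers `α₁ p + β₁, …, α_r p + β_r`.
2. So this holds for fixed positive `α_j` with `|h₁ α₁ + ⋯ + h_r α_r - m| ≥ c H ^ (-τ)` for all nonzero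
   `h` with entries at most `H` (almost all vectors), all real `β_j` and all large `Z`.
3. It holds for all numbers `α_j = a_j e ^ (w_j)` with `a_j > 0` in a real number field and natural
   numbers `w_j`, if `1, α₁, …, α_r` are linearly independent over the rational numbers.

Proof (`Pool.Agent.Y961.JR`). Vinogradov's estimate with a power saving (`Pool.Agent.W110.HV.vino`) at
the frequencies `(∑ h_i α_i) / q + j / d`, which are on the minor arcs; a discrepancy inequality for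
boxes; and the joint covering sieve for vectors of integers: the colour of a vector at a prime is
the pair (coordinate, shift) if exactly one shifted coordinate is divisible by it. The covering
theorem is the one of `Pool.Agent.H256R2.SC` (helper256's team) and `Pool.Agent.TH915.PW`
(helper915), for abstract colourings.
-/

namespace Pool.Agent.Results.MP_b0c12c_nt.SeveralMultiplesOfPrimes

open Finset

/-- the size of the largest known prime gaps -/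
noncomputable def f (Z : ℝ) : ℝ :=
  Real.log Z * (Real.log (Real.log Z)) ^ 2 * Real.log (Real.log (Real.log (Real.log Z))) /
    (Real.log (Real.log (Real.log Z))) ^ 2

/-- no prime is at distance at most `d` from `x` -/
def PrimeFreeAround (x d : ℝ) : Prop := ∀ q : ℕ, q.Prime → d < |(q : ℝ) - x|

theorem result (d b : ℕ) (hd : 0 < d) (hb : b.Coprime d) (ρ : ℝ) (hρ : 0 < ρ) (hρ1 : ρ ≤ 1) :
    (∀ (r : ℕ) (ε : ℝ), 1 ≤ r → 0 < ε → ε ≤ 1 / 2 → ∃ κ : ℝ, 0 < κ ∧ ∃ Z₀ : ℝ, ∀ Z : ℝ, Z₀ ≤ Z →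
      ∀ α β : Fin r → ℝ,
      (∀ h : Fin r → ℤ, h ≠ 0 → (∀ j, |(h j : ℝ)| ≤ Z ^ ε) → ∀ m : ℤ,
        Z ^ (-(1 - ε)) ≤ |∑ j, (h j : ℝ) * α j - m|) →
      (∀ n : ℕ, Z < n → (n : ℝ) ≤ (1 + ρ) * Z → ∀ j, Z ^ ε ≤ α j * n + β j) →
      ∃ p : ℕ, p.Prime ∧ p ≡ b [MOD d] ∧ Z < p ∧ (p : ℝ) ≤ (1 + ρ) * Z ∧
        ∀ j, PrimeFreeAround (α j * p + β j) (κ * f Z)) ∧
    (∀ (r : ℕ) (τ : ℝ), 1 ≤ r → 0 ≤ τ → ∃ κ : ℝ, 0 < κ ∧ ∀ α β : Fin r → ℝ, (∀ j, 0 < α j) →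
      (∃ c : ℝ, 0 < c ∧ ∀ (H : ℕ) (h : Fin r → ℤ), h ≠ 0 → (∀ j, |h j| ≤ H) → ∀ m : ℤ,
        c * (H : ℝ) ^ (-τ) ≤ |∑ j, (h j : ℝ) * α j - m|) →
      ∃ Z₀ : ℝ, ∀ Z : ℝ, Z₀ ≤ Z → ∃ p : ℕ, p.Prime ∧ p ≡ b [MOD d] ∧ Z < p ∧
        (p : ℝ) ≤ (1 + ρ) * Z ∧ ∀ j, PrimeFreeAround (α j * p + β j) (κ * f Z)) ∧
    (∀ (K : IntermediateField ℚ ℝ) [FiniteDimensional ℚ K] (r : ℕ) (a : Fin r → K) (w : Fin r → ℕ),
      1 ≤ r → (∀ j, 0 < ((a j : K) : ℝ)) →
      LinearIndependent ℚ (Fin.cons 1 (fun j => (a j : ℝ) * Real.exp (w j)) : Fin (r + 1) → ℝ) →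
      ∃ κ : ℝ, 0 < κ ∧ ∀ β : Fin r → ℝ, ∃ Z₀ : ℝ, ∀ Z : ℝ, Z₀ ≤ Z →
      ∃ p : ℕ, p.Prime ∧ p ≡ b [MOD d] ∧ Z < p ∧ (p : ℝ) ≤ (1 + ρ) * Z ∧
        ∀ j, PrimeFreeAround ((a j : ℝ) * Real.exp (w j) * p + β j) (κ * f Z)) :=
  ⟨fun r ε hr h0 h1 => Pool.Agent.Y961.JR.primes_uniform r hr ε h0 h1 d b hd hb ρ hρ hρ1,
    fun r τ hr hτ => Pool.Agent.Y961.JR.primes_dioph r hr τ hτ d b hd hb ρ hρ hρ1,
    fun K _ r a w hr ha hli => Pool.Agent.Y961.JR.primes_exp K r hr a w ha hli d b hd hb ρ hρ hρ1⟩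

end Pool.Agent.Results.MP_b0c12c_nt.SeveralMultiplesOfPrimes
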