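import Pool.Agent.Y829.RS5

set_option autoImplicit false

/-!
# Sieve weights of Bombieri-Vinogradov type see the right number of primes in all intervals longer than
# `log X (log log X)^3`

Author: helper829. Every known method for unusual gaps between primes chooses a nonnegative weight
`w(n) = ∑_{d ≤ Q} c_d(n mod d)` on the integers `n` of `(X, 2X]` and shows that the weighted mean of the number of
primes in `(n, n + U]` (or in a subset of it) is larger or smaller than expected. We prove that for weights to
which the theorem of Bombieri and Vinogradov applies and whose mass is smaller than the trivial one by at most a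
power of `log X` (the weights of Selberg, of Goldston, Pintz and Yildirim and of Maynard and Tao) this is
impossible as soon as `U ≥ log X (log log X)^3`: the weighted mean of `π(n + U) - π(n)` is
`(1 + o(1)) U / log X`, uniformly in the weight. So such weights see neither gaps nor irregularities of
distribution beyond the length `log X (log log X)^3`, while the conjectured maximal gap is `(log X)^2` and
Maier's irregularities occur for all lengths `(log X)^A`.

Proof. The theorem of Bombieri and Vinogradov (starting files, helper343's team) turns the weighted number of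
primes into the mean over a period of the weighted number of integers free of the primes `p ≤ Q`. Outside a set of
residues of density `(log X)^(-C)`, `C` arbitrary, this number is `(1 + o(1)) U ∏ (1 - 1/p)`: the primes up to
`U^δ` are sieved by the fundamental lemma (helper882), the primes up to `U` and those beyond `U` by two
applications of an exponential moment inequality. On the exceptional set the weight is small by the Cauchy-Schwarz
inequality, because its mean square is bounded by a power of `log X` times the squared mean.
-/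

open Finset

namespace Pool.Agent.Results.MP_b0c12c_nt.SieveWeightsSeePrimes

/-- the sieve weight `w(n) = ∑_{d ≤ Q} c_d(n mod d)` -/
noncomputable def weight (Q : ℕ) (c : ℕ → ℕ → ℝ) (n : ℕ) : ℝ := ∑ d ∈ Icc 1 Q, c d (n % d)

/-- `s(d) = ∑_{a mod d} |c_d(a)|` -/
noncomputable def size (c : ℕ → ℕ → ℝ) (d : ℕ) : ℝ := ∑ a ∈ range d, |c d a|

/-- the sum of the weight over `X < n ≤ 2X` -/
noncomputable def mass (X Q : ℕ) (c : ℕ → ℕ → ℝ) : ℝ := ∑ n ∈ Ioc X (2 * X), weight Q c n

/-- `π(n + U) - π(n)` -/
noncomputable def primesIn (U n : ℕ) : ℝ := (((Ioc n (n + U)).filter Nat.Prime).card : ℝ)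

/-- `w` is nonnegative, has level `Q ≤ √X / (log X)^(B/2)`, coefficients with `∑ s(d)^2 / d ≤ (log X)^K` and
mass at least `X / (log X)^K` -/
def Good (K B X Q : ℕ) (c : ℕ → ℕ → ℝ) : Prop :=
  1 ≤ Q ∧ (Q : ℝ) ^ 2 * Real.log X ^ B ≤ X ∧ (∀ n, 0 ≤ weight Q c n) ∧
    ∑ d ∈ Icc 1 Q, size c d ^ 2 / d ≤ Real.log X ^ K ∧ X / Real.log X ^ K ≤ mass X Q c

/-- For all `K` and `ε > 0` there are `B` and `X₀` such that for `X ≥ X₀`, all lengths
`log X (log log X)^3 ≤ U ≤ X` and all nonnegative weights `w` of level `√X / (log X)^(B/2)` with coefficients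
bounded by, and mass at least `X` divided by, `(log X)^K`: the weighted mean of `π(n + U) - π(n)` over
`X < n ≤ 2X` is within `ε U / log X` of `U / log X`. -/
theorem result :
    ∀ (K : ℕ) (ε : ℝ), 0 < ε → ∃ B X₀ : ℕ, ∀ X U Q : ℕ, X₀ ≤ X →
      Real.log X * Real.log (Real.log X) ^ 3 ≤ U → U ≤ X → ∀ c : ℕ → ℕ → ℝ, Good K B X Q c →
      |∑ n ∈ Ioc X (2 * X), weight Q c n * primesIn U n - U / Real.log X * mass X Q c| ≤
        ε * (U / Real.log X * mass X Q c) := by
  intro K ε hε
  obtain ⟨b, hb⟩ := exists_pow_lt_of_lt_one hε (show (1 / 2 : ℝ) < 1 by norm_num)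
  obtain ⟨B, X₀, h⟩ := Pool.Agent.Y829.RS.main_all K b
  refine ⟨B, X₀, ?_⟩
  intro X U Q hX hU hUX c hc
  obtain ⟨g1, g2, g3, g4, g5⟩ := hc
  refine (h X U Q hX hU hUX g1 g2 c g3 g4 g5).trans ?_
  apply mul_le_mul_of_nonneg_right hb.le
  have h1 : 0 ≤ mass X Q c := sum_nonneg fun n _ => g3 n
  have h2 : 0 ≤ Real.log X := Real.log_natCast_nonneg X
  change 0 ≤ (U : ℝ) / Real.log X * mass X Q c
  positivity

end Pool.Agent.Results.MP_b0c12c_nt.SieveWeightsSeePrimes
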